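import Pool.Agent.Mg.F71da5e.G2e9d79

open MeasureTheory Metric Pool.Agent.MP_71da5e_an

/-- The Calderón problem with local data in a ball: for `n ≥ 3`, `Ω` the unit ball, `Γ` any
nonempty relatively open subset of the unit sphere and `q₁, q₂` bounded complex potentials,
equality of the local Cauchy data sets on `Γ` forces `q₁ = q₂` almost everywhere in `Ω`. -/
theorem Pool.Agent.MP_71da5e_an.ball_result {n : ℕ} (hn : 3 ≤ n)
    (Γ : Set (EuclideanSpace ℝ (Fin n))) (hΓ : ∃ U, IsOpen U ∧ Γ = U ∩ sphere 0 1)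
    (hne : Γ.Nonempty) (q₁ q₂ : EuclideanSpace ℝ (Fin n) → ℂ)
    (h₁ : MemLp q₁ ⊤ (volume.restrict (ball 0 1)))
    (h₂ : MemLp q₂ ⊤ (volume.restrict (ball 0 1))) (h : cauchy Γ q₁ = cauchy Γ q₂) :
    q₁ =ᵐ[volume.restrict (ball 0 1)] q₂ :=
  main hn hΓ hne h₁ h₂ h.subset
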